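import Pool.Agent.Y796.PA.Pat
import Pool.Agent.H295R2.Iso.B

/-!
# Well-spaced sets of simple critical zeros: the trace inequality with clusters
-/

set_option autoImplicit false

open Complex Filter Topology Set MeasureTheory
open scoped BigOperators ComplexConjugate

namespace Pool.Agent.U73.WS

open H370 H344 H295SI H295Iso Pool.Agent.Y796.PA

/-- the test matrix on a cluster: the gain is `2 q` for every point but one -/
lemma cluster {Λ q : ℝ} (hq : 0 ≤ q) (C : Finset ℝ) (hne : C.Nonempty)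
    (h : ∀ x ∈ C, ∀ y ∈ C, q ≤ (phi Λ ((x : ℂ) - y)).re ^ 2) :
    ∃ Y : ℝ → ℝ → ℝ, (∀ v : ℝ → ℂ, ∑ x ∈ C, ∑ y ∈ C, Y x y * (conj (v x) * v y).re ≤
      ∑ x ∈ C, ‖v x‖ ^ 2) ∧ 2 * q * ((C.card : ℝ) - 1) ≤ YT Λ C Y := by
  classical
  obtain ⟨k, hk⟩ : ∃ k : ℕ, C.card = k + 1 := ⟨C.card - 1, by have := hne.card_pos; omega⟩
  rcases Nat.eq_zero_or_pos k with h0 | hk0
  · refine ⟨fun _ _ => 0, fun v => ?_, ?_⟩
    · simp only [zero_mul, Finset.sum_const_zero]
      exact Finset.sum_nonneg fun x _ => by positivity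
    · rw [YT_zero, hk, h0]
      simp
  · have hkr : (1 : ℝ) ≤ k := by exact_mod_cast hk0
    have hkp : (0 : ℝ) < k := by linarith
    refine ⟨yt Λ (1 / k), fun v => yt_block Λ (1 / k) k (by positivity)
      (by rw [mul_one_div_cancel hkp.ne']) C (by omega) v, ?_⟩
    rw [YT_yt]
    have h2 : ∀ x ∈ C, (k : ℝ) * q ≤
        ∑ y ∈ C, (if x = y then (0 : ℝ) else (phi Λ ((x : ℂ) - y)).re ^ 2) := by
      intro x hx
      rw [← Finset.add_sum_erase C _ hx, if_pos rfl, zero_add]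
      calc (k : ℝ) * q = ∑ y ∈ C.erase x, q := by
            rw [Finset.sum_const, Finset.card_erase_of_mem hx, hk, nsmul_eq_mul]
            simp
        _ ≤ _ := by
            refine Finset.sum_le_sum fun y hy => ?_
            rw [if_neg (Finset.ne_of_mem_erase hy).symm]
            exact h x hx y (Finset.mem_of_mem_erase hy)
    have h3 : ((k : ℝ) + 1) * (k * q) ≤
        ∑ x ∈ C, ∑ y ∈ C, (if x = y then (0 : ℝ) else (phi Λ ((x : ℂ) - y)).re ^ 2) := by
      calc ((k : ℝ) + 1) * (k * q) = ∑ x ∈ C, (k : ℝ) * q := by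
            rw [Finset.sum_const, hk, nsmul_eq_mul]
            push_cast
            ring
        _ ≤ _ := Finset.sum_le_sum h2
    have h4 : (0 : ℝ) ≤ 2 * (1 / k) - (1 / k) ^ 2 := by
      have h5 : (1 / (k : ℝ)) ≤ 1 := by rw [div_le_one hkp]; exact hkr
      have h6 : 0 < 1 / (k : ℝ) := by positivity
      nlinarith
    refine le_trans ?_ (mul_le_mul_of_nonneg_left h3 h4)
    have h7 : (2 * (1 / (k : ℝ)) - (1 / k) ^ 2) * (((k : ℝ) + 1) * (k * q)) =
        2 * q * k + q * (1 - 1 / k) := by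
      field_simp
      ring
    rw [h7, hk]
    push_cast
    have h8 : (1 / (k : ℝ)) ≤ 1 := by rw [div_le_one hkp]; exact hkr
    have h9 : 0 ≤ q * (1 - 1 / k) := mul_nonneg hq (by linarith)
    linarith

/-- the greedy choice of well-spaced points -/
lemma greedy {Λ q ρ : ℝ} (hq : 0 ≤ q) (hρ : 0 ≤ ρ)
    (hq1 : ∀ x y : ℝ, |x - y| ≤ ρ → q ≤ (phi Λ ((x : ℂ) - y)).re ^ 2) (S : Finset ℝ) :
    ∃ A ⊆ S, (∀ a ∈ A, ∀ b ∈ A, a ≠ b → ρ < |a - b|) ∧
      ∃ Y : ℝ → ℝ → ℝ, (∀ v : ℝ → ℂ, ∑ x ∈ S, ∑ y ∈ S, Y x y * (conj (v x) * v y).re ≤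
        ∑ x ∈ S, ‖v x‖ ^ 2) ∧ 2 * q * ((S.card : ℝ) - A.card) ≤ YT Λ S Y := by
  classical
  induction S using Finset.strongInduction with
  | H S ih =>
    rcases S.eq_empty_or_nonempty with rfl | hne
    · refine ⟨∅, Finset.Subset.refl _, by simp, fun _ _ => 0, by simp, ?_⟩
      rw [YT_zero]
      simp
    · set s0 := S.min' hne with hs0
      have hs0S : s0 ∈ S := Finset.min'_mem S hne
      have hmin : ∀ x ∈ S, s0 ≤ x := fun x hx => Finset.min'_le S x hx
      set C := S.filter (fun x => x ≤ s0 + ρ) with hC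
      set S' := S.filter (fun x => ¬ x ≤ s0 + ρ) with hS'
      have hmC : ∀ x, x ∈ C ↔ x ∈ S ∧ x ≤ s0 + ρ := fun x => Finset.mem_filter
      have hmS' : ∀ x, x ∈ S' ↔ x ∈ S ∧ ¬ x ≤ s0 + ρ := fun x => Finset.mem_filter
      have hs0C : s0 ∈ C := (hmC s0).mpr ⟨hs0S, by linarith⟩
      have hss : S' ⊂ S := by
        rw [Finset.ssubset_iff_of_subset (Finset.filter_subset _ _)]
        exact ⟨s0, hs0S, fun h => ((hmS' s0).mp h).2 (by linarith)⟩
      have hun : C ∪ S' = S := Finset.filter_union_filter_not_eq _ _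
      have hdis : Disjoint C S' := Finset.disjoint_filter_filter_not _ _ _
      obtain ⟨A', hA', hsep, Y', hY', hY'2⟩ := ih S' hss
      obtain ⟨Y1, hY1, hY12⟩ := cluster hq C ⟨s0, hs0C⟩ (fun x hx y hy => by
        have hx' := (hmC x).mp hx
        have hy' := (hmC y).mp hy
        apply hq1
        rw [abs_le]
        constructor <;> linarith [hmin x hx'.1, hmin y hy'.1, hx'.2, hy'.2])
      obtain ⟨Y, h1, h2⟩ := glue Λ C S' hdis Y1 Y' hY1 hY'
      rw [hun] at h1 h2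
      have hns : s0 ∉ A' := fun h => ((hmS' s0).mp (hA' h)).2 (by linarith)
      refine ⟨insert s0 A', ?_, ?_, Y, h1, ?_⟩
      · intro x hx
        rcases Finset.mem_insert.mp hx with rfl | hx
        · exact hs0S
        · exact hss.1 (hA' hx)
      · have hfar : ∀ a ∈ A', ρ < |a - s0| := by
          intro a ha
          have h5 := not_le.mp ((hmS' a).mp (hA' ha)).2
          exact lt_of_lt_of_le (by linarith) (le_abs_self _)
        intro a ha b hb hab
        rcases Finset.mem_insert.mp ha with rfl | ha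
        · rcases Finset.mem_insert.mp hb with rfl | hb
          · exact absurd rfl hab
          · rw [abs_sub_comm]
            exact hfar b hb
        · rcases Finset.mem_insert.mp hb with rfl | hb
          · exact hfar a ha
          · exact hsep a ha b hb hab
      · rw [h2, Finset.card_insert_of_notMem hns]
        have hc : (S.card : ℝ) = C.card + S'.card := by
          have h5 := Finset.card_union_of_disjoint hdis
          rw [hun] at h5
          rw [h5]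
          push_cast
          ring
        rw [hc]
        push_cast
        have e : 2 * q * ((C.card : ℝ) + S'.card - (A'.card + 1)) =
            2 * q * ((C.card : ℝ) - 1) + 2 * q * (S'.card - A'.card) := by ring
        rw [e]
        linarith

variable {F : ℂ → ℂ}

lemma SI_zero (F : ℂ → ℂ) (U1 U2 : ℝ) : SI F U1 U2 0 0 = SF F U1 U2 := by
  classical
  unfold SI
  rw [Finset.filter_eq_self]
  intro x _ s' _ hne habs
  rw [abs_pos]
  intro h
  apply hne
  have h1 : s'.im - x = 0 := abs_eq_zero.mp (le_antisymm habs (abs_nonneg _))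
  apply Complex.ext
  · simp
    linarith
  · simp
    linarith

/-- **the trace inequality for well-spaced sets** -/
theorem ws_core (hF : GoodL F) {U1 U2 Λ ρ q : ℝ} (hU : 1 ≤ U1) (hρ : 0 ≤ ρ) (hq : 0 ≤ q)
    (hq1 : ∀ x y : ℝ, |x - y| ≤ ρ → q ≤ (phi Λ ((x : ℂ) - y)).re ^ 2) :
    ∃ A ⊆ SF F U1 U2, (∀ a ∈ A, ∀ b ∈ A, a ≠ b → ρ < |a - b|) ∧
      2 * (NN F U1 U2 : ℝ) - Ns F U1 U2 + 2 * q * ((Ns F U1 U2 : ℝ) - A.card) ≤
        QQ F Λ U1 U2 := by
  obtain ⟨A, hA, hsep, Y, hY, hYT⟩ := greedy (Λ := Λ) hq hρ hq1 (SF F U1 U2)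
  refine ⟨A, hA, hsep, ?_⟩
  have core := core_ineq (U2 := U2) hF hU Λ 0 0 0 le_rfl le_rfl le_rfl
    (fun x y _ => sq_nonneg _) (fun x w _ _ _ => by rw [zero_mul]; positivity) Y
    (by rw [SI_zero]; exact hY)
  rw [SI_zero, zero_mul, add_zero] at core
  have hNs : (Ns F U1 U2 : ℝ) = ((SF F U1 U2).card : ℝ) := by rw [Ns_card hF hU]
  rw [hNs] at core ⊢
  linarith

/-- the kernel up to half of the mean spacing -/
theorem kernel_half {r e1 : ℝ} (hK : 0 ≤ KK r) (hr : r ≤ 1 / 2) (he : 0 < e1)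
    (he1 : e1 ≤ 1) :
    ∃ T0 : ℝ, 10 ≤ T0 ∧ ∀ T : ℝ, T0 ≤ T → ∀ Λ : ℝ, 0 ≤ Λ → Λ ≤ Real.log T →
      ∀ x y : ℝ, |x - y| ≤ 2 * Real.pi * r / Real.log T →
        (1 - e1) * KK r ^ 2 ≤ (phi Λ ((x : ℂ) - y)).re ^ 2 := by
  have hpi := Real.pi_pos
  have hpi4 := Real.pi_lt_d4
  refine ⟨Real.exp (max 100 (1 / e1)), ?_, fun T hT Λ hΛ0 hΛ1 => ?_⟩
  · have h1 : Real.exp 100 ≤ Real.exp (max 100 (1 / e1)) := Real.exp_le_exp.mpr (le_max_left _ _)
    have h2 := Real.add_one_le_exp (100 : ℝ)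
    linarith
  have hT0 : 0 < T := (Real.exp_pos _).trans_le hT
  have hL := (Real.le_log_iff_exp_le hT0).mpr hT
  set L := Real.log T with hLdef
  have hL1 : 100 ≤ L := (le_max_left _ _).trans hL
  have hL2 : 1 / e1 ≤ L := (le_max_right _ _).trans hL
  have hL0 : 0 < L := by linarith
  have hLe : 1 ≤ L * e1 := by rw [div_le_iff₀ he] at hL2; exact hL2
  set σ : ℝ := 2 * Real.pi / L with hσ
  have hσ0 : 0 < σ := by positivity
  have hσL : σ * L = 2 * Real.pi := by rw [hσ]; field_simp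
  have hσ1 : σ ≤ 0.063 := by
    rw [hσ, div_le_iff₀ hL0]; nlinarith
  have hσ2 : σ ^ 2 ≤ 0.4 * e1 := by
    have h1 : σ ^ 2 * L = σ * (2 * Real.pi) := by rw [← hσL]; ring
    have h2 : σ * (2 * Real.pi) ≤ 0.063 * 6.2832 := by
      apply mul_le_mul hσ1 (by linarith) (by positivity) (by norm_num)
    have h3 : σ ^ 2 * L ≤ 0.4 * (L * e1) := by
      rw [h1]
      norm_num at h2 ⊢
      linarith
    have h4 : σ ^ 2 * L ≤ (0.4 * e1) * L := by linarith
    exact le_of_mul_le_mul_right h4 hL0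
  have hρ : 2 * Real.pi * r / L = σ * r := by rw [hσ]; ring
  rw [hρ]
  have hΛd : ∀ d : ℝ, |d| ≤ σ * r → |Λ * d| ≤ 2 * Real.pi * r := by
    intro d hd
    rw [abs_mul, abs_of_nonneg hΛ0]
    calc Λ * |d| ≤ L * (σ * r) := mul_le_mul hΛ1 hd (abs_nonneg _) hL0.le
      _ = 2 * Real.pi * r := by rw [← hσL]; ring
  have hRpi : 2 * Real.pi * r ≤ Real.pi := by nlinarith
  have hdsq : ∀ d : ℝ, |d| ≤ σ * r → d ^ 2 ≤ σ ^ 2 / 4 := by
    intro d hd
    rw [← sq_abs]
    have h1 : |d| ≤ σ * (1 / 2) := hd.trans (mul_le_mul_of_nonneg_left hr hσ0.le)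
    calc |d| ^ 2 ≤ (σ * (1 / 2)) ^ 2 := pow_le_pow_left₀ (abs_nonneg _) h1 2
      _ = σ ^ 2 / 4 := by ring
  intro x y hxy
  rw [phi_sub_re, mul_pow]
  have h1 := kap_lower (v := 0) (hΛd (x - y) hxy) hRpi
  simp only [Complex.ofReal_zero, mul_zero, add_zero] at h1
  change KK r ≤ _ at h1
  have h2 : KK r ^ 2 ≤ (kap ((Λ * (x - y) : ℝ) : ℂ)).re ^ 2 :=
    pow_le_pow_left₀ hK h1 2
  have h3 : 1 - e1 ≤ Real.exp (-(x - y) ^ 2 / 8) ^ 2 := by
    rw [← Real.exp_nat_mul]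
    have h4 := Real.add_one_le_exp (((2 : ℕ) : ℝ) * (-(x - y) ^ 2 / 8))
    have h5 := hdsq (x - y) hxy
    push_cast at h4 ⊢
    linarith
  calc (1 - e1) * KK r ^ 2 ≤ (1 - e1) * (kap ((Λ * (x - y) : ℝ) : ℂ)).re ^ 2 :=
        mul_le_mul_of_nonneg_left h2 (by linarith)
    _ ≤ Real.exp (-(x - y) ^ 2 / 8) ^ 2 * (kap ((Λ * (x - y) : ℝ) : ℂ)).re ^ 2 :=
        mul_le_mul_of_nonneg_right h3 (sq_nonneg _)
    _ = _ := by ring

end Pool.Agent.U73.WS
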