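import Pool.Agent.U73.WS.Num
import Pool.Agent.U73.RN.Fin

/-!
# Well-spaced sets of simple critical zeros in short intervals
-/

set_option autoImplicit false

open Complex Filter Topology Set MeasureTheory
open scoped BigOperators ComplexConjugate

namespace Pool.Agent.U73.WS

open H370 H344 H295SI H295Iso Pool.Agent.Y796.PA

variable {F : ℂ → ℂ}

/-- the cost of a removed zero -/
noncomputable def kk (x : ℝ) : ℝ := min 1 (2 * KK x ^ 2)

lemma kk_bounds {x : ℝ} (h0 : 0 ≤ x) (h1 : x ≤ 1 / 2) : 0 ≤ KK x ∧ 0.678 ≤ kk x ∧ kk x ≤ 1 ∧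
    kk x ≤ 2 * KK x ^ 2 := by
  have h2 := KK_half
  have h3 := KK_anti h0 h1 le_rfl
  have h4 : (0.655 : ℝ) ≤ KK x := h2.trans h3
  have h5 : (0.655 : ℝ) ^ 2 ≤ KK x ^ 2 := pow_le_pow_left₀ (by norm_num) h4 2
  refine ⟨by norm_num at h4 ⊢; linarith, ?_, min_le_left _ _, min_le_right _ _⟩
  unfold kk
  rw [le_min_iff]
  constructor
  · norm_num
  · norm_num at h5 ⊢
    linarith

lemma kk_one {x : ℝ} (h0 : 0 ≤ x) (h1 : x ≤ 0.45) : kk x = 1 := by
  have h3 := KK_anti h0 h1 (by norm_num)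
  have h4 : (0.715 : ℝ) ≤ KK x := KK_045.trans h3
  have h5 : (0.715 : ℝ) ^ 2 ≤ KK x ^ 2 := pow_le_pow_left₀ (by norm_num) h4 2
  unfold kk
  rw [min_eq_left]
  norm_num at h5 ⊢
  linarith

/-- well-spaced simple critical zeros in the good intervals -/
theorem ws_det (hF : GoodL F) {h r ε : ℝ} (hh : 0 < h)
    (hr0 : 0 ≤ r) (hr : h * r ≤ 1 / 2) (hε : 0 < ε) :
    ∃ x0 : ℝ, 0 < x0 ∧ x0 < h ∧ ∀ x : ℝ, x0 ≤ x → x < h →
    ∃ e0 : ℝ, 0 < e0 ∧ ∀ e : ℝ, 0 < e → e ≤ e0 → ∃ T0 : ℝ, 10 ≤ T0 ∧ ∀ T : ℝ, T0 ≤ T →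
      ∀ t : ℝ, T ≤ t → ∀ H : ℝ, 0 < H → GoodInt F T H x e t →
      ∃ A ⊆ SF F t (t + H), (∀ a ∈ A, ∀ b ∈ A, a ≠ b → 2 * Real.pi * r / Real.log T < |a - b|) ∧
        (1 - (c0 h - 1) / kk (h * r) - ε) * (NN F t (t + H) : ℝ) ≤ A.card := by
  classical
  have hpi := Real.pi_pos
  have hpi2 : Real.pi < 3.15 := Real.pi_lt_d2
  have hhr0 : 0 ≤ h * r := by positivity
  obtain ⟨hKa, hK0, hK1, hK2'⟩ := kk_bounds hhr0 hr
  set K2 : ℝ := kk (h * r) with hK2
  set A : ℝ := 1 - (c0 h - 1) / K2 - ε with hA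
  by_cases hA0 : A ≤ 0
  · refine ⟨h / 2, by positivity, by linarith, fun x _ _ => ⟨1, one_pos, fun e _ _ =>
      ⟨10, le_rfl, fun T _ t _ H _ _ => ⟨∅, Finset.empty_subset _, by simp, ?_⟩⟩⟩⟩
    have h1 : A * (NN F t (t + H) : ℝ) ≤ 0 := mul_nonpos_of_nonpos_of_nonneg hA0 (by positivity)
    exact h1.trans (by positivity)
  push Not at hA0
  have hK20 : 0 < K2 := by linarith
  -- parameters
  obtain ⟨x0, hx00, hx0h, hcc⟩ : ∃ x0 : ℝ, 0 < x0 ∧ x0 < h ∧
      ∀ x : ℝ, x0 ≤ x → x < h → c0 x ≤ c0 h + ε * K2 / 4 := by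
    have hcont := c0_cont hh
    have h1 : ∀ᶠ x in 𝓝 h, c0 x < c0 h + ε * K2 / 4 :=
      hcont.eventually (gt_mem_nhds (by have : 0 < ε * K2 := by positivity
                                        linarith))
    rw [Metric.eventually_nhds_iff] at h1
    obtain ⟨d, hd0, hd⟩ := h1
    refine ⟨max (h - d / 2) (h / 2), lt_of_lt_of_le (by positivity) (le_max_right _ _),
      max_lt (by linarith) (by linarith), fun x hx hxh => (hd ?_).le⟩
    have h2 : h - d / 2 ≤ x := (le_max_left _ _).trans hx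
    rw [Real.dist_eq, abs_sub_comm, abs_of_pos (by linarith)]
    linarith
  set e : ℝ := min (1 / 10) (ε * K2 / (8 * (|c0 h - 1| + 1))) with he
  have he0 : 0 < e := by rw [he]; positivity
  have he1 : e ≤ 1 / 10 := min_le_left _ _
  have hec : e * |c0 h - 1| ≤ ε * K2 / 8 := by
    have h1 : e ≤ ε * K2 / (8 * (|c0 h - 1| + 1)) := min_le_right _ _
    rw [le_div_iff₀ (by positivity)] at h1
    have h2 := abs_nonneg (c0 h - 1)
    nlinarith
  have heε : e * (ε * K2) ≤ ε * K2 / 8 := by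
    have : 0 < ε * K2 := by positivity
    nlinarith
  set η : ℝ := min (1 / 100) (ε * K2 / (4 * (15 + 8 * A + 1))) with hη
  have hη0 : 0 < η := by rw [hη]; positivity
  have hη1 : η ≤ 1 / 100 := min_le_left _ _
  have heta : (15 + 8 * A + 1) * η ≤ ε * K2 / 4 := by
    have h1 : η ≤ ε * K2 / (4 * (15 + 8 * A + 1)) := min_le_right _ _
    rw [le_div_iff₀ (by positivity)] at h1
    linarith
  refine ⟨x0, hx00, hx0h, fun x hx1 hx2 => ⟨η, hη0, fun e' he'0 he'η => ?_⟩⟩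
  obtain ⟨T3, hT3, hKB⟩ := kernel_half (r := h * r) hKa hr he0 (by linarith)
  -- largeness of `T`
  have htop : Tendsto (fun T : ℝ => T ^ h) atTop atTop := tendsto_rpow_atTop hh
  obtain ⟨T4, hT4⟩ := (htop.eventually_ge_atTop T3).exists_forall_of_atTop
  refine ⟨max 10 T4, le_max_left _ _, fun T hT t ht H hH hgood => ?_⟩
  have hT10 : 10 ≤ T := (le_max_left _ _).trans hT
  have hTh3 := hT4 T ((le_max_right _ _).trans hT)
  have hL : 0 < Real.log T := Real.log_pos (by linarith)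
  obtain ⟨hNN, hQQ⟩ := hgood
  set M : ℝ := H * Real.log T / (2 * Real.pi) with hM
  have hM0 : 0 < M := by positivity
  obtain ⟨hNNl, hNNu⟩ := abs_le.mp hNN
  have hlogTh : Real.log (T ^ h) = h * Real.log T := Real.log_rpow (by linarith) h
  have hx0 : 0 < x := hx00.trans_le hx1
  have hΛ0 : 0 ≤ x * Real.log T := mul_nonneg hx0.le hL.le
  have hΛ1 : x * Real.log T ≤ Real.log (T ^ h) := by
    rw [hlogTh]
    exact mul_le_mul_of_nonneg_right hx2.le hL.le
  have hk1 := hKB (T ^ h) hTh3 (x * Real.log T) hΛ0 hΛ1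
  have hρe : 2 * Real.pi * (h * r) / Real.log (T ^ h) = 2 * Real.pi * r / Real.log T := by
    rw [hlogTh]; field_simp
  rw [hρe] at hk1
  have hU : 1 ≤ t := by linarith
  have hρ0 : 0 ≤ 2 * Real.pi * r / Real.log T := by positivity
  have hq00 : 0 ≤ (1 - e) * KK (h * r) ^ 2 := mul_nonneg (by linarith) (sq_nonneg _)
  obtain ⟨B, hB, hsep, core⟩ := ws_core (U2 := t + H) hF hU hρ0 hq00 hk1
  refine ⟨B, hB, hsep, ?_⟩
  have hNsNN : (Ns F t (t + H) : ℝ) ≤ NN F t (t + H) := by exact_mod_cast H295Iso.Ns_le_NN hF hU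
  have hBc : (B.card : ℝ) ≤ Ns F t (t + H) := by
    rw [Ns_card hF hU]
    exact_mod_cast Finset.card_le_card hB
  have core' : 2 * (NN F t (t + H) : ℝ) - Ns F t (t + H) +
      (1 - e) * K2 * ((Ns F t (t + H) : ℝ) - B.card) ≤ QQ F (x * Real.log T) t (t + H) := by
    refine le_trans ?_ core
    have h1 : (1 - e) * K2 ≤ 2 * ((1 - e) * KK (h * r) ^ 2) := by
      have := mul_le_mul_of_nonneg_left hK2' (show 0 ≤ 1 - e by linarith)
      linarith
    have := mul_le_mul_of_nonneg_right h1 (sub_nonneg.mpr hBc)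
    linarith
  have he'M : e' * M ≤ η * M := mul_le_mul_of_nonneg_right he'η hM0.le
  have hηM : 0 < η * M := by positivity
  have hQ' : QQ F (x * Real.log T) t (t + H) ≤ M * (c0 x + η) :=
    hQQ.trans (mul_le_mul_of_nonneg_left (by linarith) hM0.le)
  exact num_core (N := (NN F t (t + H) : ℝ)) (s := (Ns F t (t + H) : ℝ))
    (Q := QQ F (x * Real.log T) t (t + H)) (CL := 0) (NT := (NN F t (t + H) : ℝ))
    (M := M) (q := (1 - e) * K2) (c := c0 h) (c' := c0 x) (K2 := K2)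
    hM0 hK0 hK1 hNsNN rfl he0 he1 hη0 hη1 core' (by linarith) (by linarith) hQ'
    (hcc x hx1 hx2) hec hA hA0
    heta heε (by positivity) (by linarith) (by linarith) hε

/-- well-spaced simple critical zeros in all short intervals -/
theorem ws_short (hF : GoodL F) {h r ε : ℝ} (hh : 0 < h) (hh1 : h ≤ 1)
    (hr0 : 0 ≤ r) (hr : h * r ≤ 1 / 2) (hε : 0 < ε) :
    ∃ T0 : ℝ, 10 ≤ T0 ∧ ∀ T : ℝ, T0 ≤ T → ∀ H : ℝ, T ^ h ≤ H → H ≤ T →
      ∃ A ⊆ SF F T (T + H), (∀ a ∈ A, ∀ b ∈ A, a ≠ b → 2 * Real.pi * r / Real.log T < |a - b|) ∧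
        (1 - (c0 h - 1) / kk (h * r) - ε) * (NN F T (T + H) : ℝ) ≤ A.card := by
  classical
  have hpi := Real.pi_pos
  have hpi2 : Real.pi < 3.15 := Real.pi_lt_d2
  have hhr0 : 0 ≤ h * r := by positivity
  obtain ⟨hKa, hK0, hK1, hK2'⟩ := kk_bounds hhr0 hr
  set K2 : ℝ := kk (h * r) with hK2
  set A : ℝ := 1 - (c0 h - 1) / K2 - ε with hA
  by_cases hA0 : A ≤ 0
  · refine ⟨10, le_rfl, fun T _ H _ _ => ⟨∅, Finset.empty_subset _, by simp, ?_⟩⟩
    have h1 : A * (NN F T (T + H) : ℝ) ≤ 0 := mul_nonpos_of_nonpos_of_nonneg hA0 (by positivity)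
    exact h1.trans (by positivity)
  push Not at hA0
  have hK20 : 0 < K2 := by linarith
  -- parameters
  obtain ⟨ε', hε'0, hε'h, hcc⟩ : ∃ ε' : ℝ, 0 < ε' ∧ ε' < h ∧ c0 (h - ε') ≤ c0 h + ε * K2 / 4 := by
    have hcont := c0_cont hh
    have h1 : ∀ᶠ x in 𝓝 h, c0 x < c0 h + ε * K2 / 4 :=
      hcont.eventually (gt_mem_nhds (by have : 0 < ε * K2 := by positivity
                                        linarith))
    rw [Metric.eventually_nhds_iff] at h1
    obtain ⟨d, hd0, hd⟩ := h1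
    refine ⟨min (d / 2) (h / 2), by positivity, lt_of_le_of_lt (min_le_right _ _) (by linarith), ?_⟩
    refine (hd ?_).le
    rw [Real.dist_eq, abs_sub_comm, show h - (h - min (d / 2) (h / 2)) = min (d / 2) (h / 2) by ring,
      abs_of_pos (by positivity)]
    exact lt_of_le_of_lt (min_le_left _ _) (by linarith)
  set e : ℝ := min (1 / 10) (ε * K2 / (8 * (|c0 h - 1| + 1))) with he
  have he0 : 0 < e := by rw [he]; positivity
  have he1 : e ≤ 1 / 10 := min_le_left _ _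
  have hec : e * |c0 h - 1| ≤ ε * K2 / 8 := by
    have h1 : e ≤ ε * K2 / (8 * (|c0 h - 1| + 1)) := min_le_right _ _
    rw [le_div_iff₀ (by positivity)] at h1
    have h2 := abs_nonneg (c0 h - 1)
    nlinarith
  have heε : e * (ε * K2) ≤ ε * K2 / 8 := by
    have : 0 < ε * K2 := by positivity
    nlinarith
  set η : ℝ := min (1 / 100) (ε * K2 / (4 * (15 + 8 * A + 1))) with hη
  have hη0 : 0 < η := by rw [hη]; positivity
  have hη1 : η ≤ 1 / 100 := min_le_left _ _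
  have heta : (15 + 8 * A + 1) * η ≤ ε * K2 / 4 := by
    have h1 : η ≤ ε * K2 / (4 * (15 + 8 * A + 1)) := min_le_right _ _
    rw [le_div_iff₀ (by positivity)] at h1
    linarith
  obtain ⟨T1, hT1, hPC⟩ := pairShort hF h ε' η hε'0 hε'h hh1 hη0
  obtain ⟨C, hC, hcnt⟩ := H965SI.countShort F hF
  obtain ⟨T3, hT3, hKB⟩ := kernel_half (r := h * r) hKa hr he0 (by linarith)
  -- largeness of `T`
  have htop : Tendsto (fun T : ℝ => T ^ h) atTop atTop := tendsto_rpow_atTop hh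
  have hlogtop := Real.tendsto_log_atTop
  obtain ⟨T4, hT4⟩ := (htop.eventually_ge_atTop
    (max (max T3 5) (2 * Real.pi * C / η))).exists_forall_of_atTop
  obtain ⟨T5, hT5⟩ := (hlogtop.eventually_ge_atTop (10 : ℝ)).exists_forall_of_atTop
  refine ⟨max (max T1 10) (max T4 T5), (le_max_right _ _).trans (le_max_left _ _),
    fun T hT H hH hHT => ?_⟩
  have hTT1 : T1 ≤ T := ((le_max_left _ _).trans (le_max_left _ _)).trans hT
  have hT10 : 10 ≤ T := ((le_max_right _ _).trans (le_max_left _ _)).trans hT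
  have hTT4 := hT4 T (((le_max_left _ _).trans (le_max_right _ _)).trans hT)
  have hL10 := hT5 T (((le_max_right _ _).trans (le_max_right _ _)).trans hT)
  have hTh3 : T3 ≤ T ^ h := ((le_max_left _ _).trans (le_max_left _ _)).trans hTT4
  have hTh5 : 5 ≤ T ^ h := ((le_max_right _ _).trans (le_max_left _ _)).trans hTT4
  have hThC : 2 * Real.pi * C / η ≤ T ^ h := (le_max_right _ _).trans hTT4
  have hL : 0 < Real.log T := by linarith
  have hH5 : 5 ≤ H := hTh5.trans hH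
  obtain ⟨U1, U2, hU1, hU1', hU2, hU2', hNN, hQQ⟩ := hPC T hTT1 H hH hHT
  set M : ℝ := H * Real.log T / (2 * Real.pi) with hM
  have hM0 : 0 < M := by positivity
  have hHL : H * Real.log T = 2 * Real.pi * M := by rw [hM]; field_simp
  rw [hHL] at hNN
  have hηM : η * (2 * Real.pi * M) ≤ 7 * η * M := by
    have : 2 * Real.pi ≤ 7 := by linarith
    calc η * (2 * Real.pi * M) = (η * M) * (2 * Real.pi) := by ring
      _ ≤ (η * M) * 7 := by
        apply mul_le_mul_of_nonneg_left this (by positivity)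
      _ = 7 * η * M := by ring
  obtain ⟨hNNl, hNNu⟩ := abs_le.mp hNN
  have hcnt2 := (hcnt T hT10 H (by linarith) hHT U1 U2 hU1 hU1' hU2 hU2').2
  have hlogTh : Real.log (T ^ h) = h * Real.log T := Real.log_rpow (by linarith) h
  have hΛ0 : 0 ≤ (h - ε') * Real.log T := mul_nonneg (by linarith) hL.le
  have hΛ1 : (h - ε') * Real.log T ≤ Real.log (T ^ h) := by
    rw [hlogTh]
    exact mul_le_mul_of_nonneg_right (by linarith) hL.le
  have hk1 := hKB (T ^ h) hTh3 ((h - ε') * Real.log T) hΛ0 hΛ1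
  have hρe : 2 * Real.pi * (h * r) / Real.log (T ^ h) = 2 * Real.pi * r / Real.log T := by
    rw [hlogTh]; field_simp
  rw [hρe] at hk1
  have hU : 1 ≤ U1 := by linarith
  have hρ0 : 0 ≤ 2 * Real.pi * r / Real.log T := by positivity
  have hq00 : 0 ≤ (1 - e) * KK (h * r) ^ 2 := mul_nonneg (by linarith) (sq_nonneg _)
  obtain ⟨B, hB, hsep, core⟩ := ws_core (U2 := U2) hF hU hρ0 hq00 hk1
  refine ⟨B, hB.trans ?_, hsep, ?_⟩
  · intro y hy
    rw [mem_SF] at hy ⊢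
    rw [mem_Zf hF hU] at hy
    rw [mem_Zf hF (by linarith : (1 : ℝ) ≤ T)]
    exact ⟨⟨hy.1.1, hy.1.2.1, by linarith [hy.1.2.2.1], by linarith [hy.1.2.2.2.1],
      hy.1.2.2.2.2⟩, hy.2⟩
  have hNsNN : (Ns F U1 U2 : ℝ) ≤ NN F U1 U2 := by exact_mod_cast H295Iso.Ns_le_NN hF hU
  have hBc : (B.card : ℝ) ≤ Ns F U1 U2 := by
    rw [Ns_card hF hU]
    exact_mod_cast Finset.card_le_card hB
  have core' : 2 * (NN F U1 U2 : ℝ) - Ns F U1 U2 +
      (1 - e) * K2 * ((Ns F U1 U2 : ℝ) - B.card) ≤ QQ F ((h - ε') * Real.log T) U1 U2 := by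
    refine le_trans ?_ core
    have h1 : (1 - e) * K2 ≤ 2 * ((1 - e) * KK (h * r) ^ 2) := by
      have := mul_le_mul_of_nonneg_left hK2' (show 0 ≤ 1 - e by linarith)
      linarith
    have := mul_le_mul_of_nonneg_right h1 (sub_nonneg.mpr hBc)
    linarith
  have hCL : C * Real.log T ≤ η * M := by
    rw [div_le_iff₀ hη0] at hThC
    have h1 : 2 * Real.pi * C ≤ H * η := hThC.trans (mul_le_mul_of_nonneg_right hH hη0.le)
    have : η * M = (H * η) * (Real.log T / (2 * Real.pi)) := by rw [hM]; ring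
    rw [this]
    calc C * Real.log T = (2 * Real.pi * C) * (Real.log T / (2 * Real.pi)) := by
          field_simp
      _ ≤ (H * η) * (Real.log T / (2 * Real.pi)) :=
        mul_le_mul_of_nonneg_right h1 (by positivity)
  have hCl1 : 0 ≤ C * Real.log T := by positivity
  exact num_core (N := (NN F U1 U2 : ℝ)) (s := (Ns F U1 U2 : ℝ))
    (Q := QQ F ((h - ε') * Real.log T) U1 U2) (CL := C * Real.log T)
    (M := M) (q := (1 - e) * K2) (c := c0 h) (c' := c0 (h - ε')) (K2 := K2)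
    hM0 hK0 hK1 hNsNN rfl he0 he1 hη0 hη1 core' (by linarith) (by linarith) hQQ hcc hec hA hA0
    heta heε hCL (by linarith) (by linarith) hε

/-- well-spaced simple critical zeros in almost all very short intervals -/
theorem ws_aa (hF : GoodL F) (hB : ∀ τ : ℝ, 0 < τ → τ ≤ 1 → Pool.Agent.TH822.DZ.BZr F τ)
    {η h r ε : ℝ} (hη0 : 0 < η) (hη1 : η < 1) (hh : 0 < h) (hh1 : 2 * h ≤ 1 + η)
    (hr0 : 0 ≤ r) (hr : h * r ≤ 1 / 2) (hε : 0 < ε) :
    AA η (fun T H t => ∃ A ⊆ SF F t (t + H),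
      (∀ a ∈ A, ∀ b ∈ A, a ≠ b → 2 * Real.pi * r / Real.log T < |a - b|) ∧
        (1 - (c0 h - 1) / kk (h * r) - ε) * (NN F t (t + H) : ℝ) ≤ A.card) := by
  obtain ⟨x0, hx0, hxh, h1⟩ := ws_det hF hh hr0 hr hε
  obtain ⟨e0, he0, h2⟩ := h1 x0 le_rfl hxh
  obtain ⟨T0, -, h3⟩ := h2 e0 he0 le_rfl
  exact aa_of_det hF hB hη0 hη1 hh1 hx0 hxh he0 fun T hT t ht H hH hg =>
    h3 T hT t ht H (by linarith) hg

end Pool.Agent.U73.WS
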