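import Pool.Agent.U73.WS.Core
import Pool.Agent.H934R2.Ch.Basic
import Pool.Agent.W354.ZP.Num

/-!
# The Montgomery-Taylor kernel up to half of the mean spacing
-/

set_option autoImplicit false

open Complex Filter Topology Set MeasureTheory
open scoped BigOperators ComplexConjugate

namespace Pool.Agent.U73.WS

open H370 H344

lemma den_le_one : Real.sqrt 2 * Real.sin (1 / Real.sqrt 2) ≤ 1 := by
  have h0 : 0 < Real.sqrt 2 := by positivity
  have h1 : Real.sin (1 / Real.sqrt 2) ≤ 1 / Real.sqrt 2 := Real.sin_le (by positivity)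
  calc Real.sqrt 2 * Real.sin (1 / Real.sqrt 2) ≤ Real.sqrt 2 * (1 / Real.sqrt 2) :=
        mul_le_mul_of_nonneg_left h1 h0.le
    _ = 1 := by field_simp

lemma g0_ge {t : ℝ} (h1 : -1 / 2 ≤ t) (h2 : t ≤ 1 / 2) : 1 - t ^ 2 ≤ g0 t := by
  unfold g0
  have hd := GramAux.den_pos
  have hd1 := den_le_one
  have h3 := Real.one_sub_sq_div_two_le_cos (x := Real.sqrt 2 * t)
  have h4 : (Real.sqrt 2 * t) ^ 2 = 2 * t ^ 2 := by
    rw [mul_pow, Real.sq_sqrt (by norm_num)]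
  rw [h4] at h3
  have h5 : t ^ 2 ≤ 1 / 4 := by nlinarith
  rw [le_div_iff₀ hd]
  calc (1 - t ^ 2) * (Real.sqrt 2 * Real.sin (1 / Real.sqrt 2)) ≤ (1 - t ^ 2) * 1 :=
        mul_le_mul_of_nonneg_left hd1 (by linarith)
    _ ≤ Real.cos (Real.sqrt 2 * t) := by linarith

lemma int_four : ∫ t in (-1 / 2 : ℝ)..(1 / 2), (t ^ 4 - t ^ 6) = 1 / 80 - 1 / 448 := by
  rw [intervalIntegral.integral_sub (by apply Continuous.intervalIntegrable; fun_prop)
    (by apply Continuous.intervalIntegrable; fun_prop), integral_pow, integral_pow]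
  norm_num

/-- lower bound with the fourth moment -/
lemma KK_quart {r : ℝ} (h0 : 0 ≤ r) (h1 : r ≤ 1 / 2) :
    1 - (2 * Real.pi * r) ^ 2 / 2 * (cMTinv - 5 / 4) +
      (2 * Real.pi * r) ^ 4 / 24 * (1 - (2 * Real.pi * r) ^ 2 / 120) * (1 / 80 - 1 / 448) ≤
      KK r := by
  have hpi := Real.pi_pos
  have hpi2 := Real.pi_lt_d2
  unfold KK
  rw [GramAux.kap_re]
  have hc := GramAux.g0_cont
  set u : ℝ := 2 * Real.pi * r with hu
  have hu0 : 0 ≤ u := by positivity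
  have hu1 : u ≤ 3.15 := by nlinarith
  have hu2 : u ^ 2 ≤ 10 := by nlinarith
  set κ : ℝ := u ^ 4 / 24 * (1 - u ^ 2 / 120) with hκ
  have hκ0 : 0 ≤ κ := by
    rw [hκ]
    apply mul_nonneg (by positivity)
    linarith
  have h2 : ∫ t in (-1 / 2 : ℝ)..(1 / 2), (g0 t - g0 t * t ^ 2 * (u ^ 2 / 2) +
      (t ^ 4 - t ^ 6) * κ) = 1 - u ^ 2 / 2 * (cMTinv - 5 / 4) + κ * (1 / 80 - 1 / 448) := by
    rw [intervalIntegral.integral_add, intervalIntegral.integral_sub,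
      intervalIntegral.integral_mul_const, intervalIntegral.integral_mul_const, int_g0, int_g0_sq,
      int_four]
    · ring
    · apply Continuous.intervalIntegrable; fun_prop
    · apply Continuous.intervalIntegrable; fun_prop
    · apply Continuous.intervalIntegrable; fun_prop
    · apply Continuous.intervalIntegrable; fun_prop
  rw [← h2]
  apply intervalIntegral.integral_mono_on (by norm_num)
  · apply Continuous.intervalIntegrable; fun_prop
  · apply Continuous.intervalIntegrable; fun_prop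
  intro t ht
  have hg := GramAux.g0_nonneg ht.1 ht.2
  have hg1 := g0_ge ht.1 ht.2
  have ht2 : t ^ 2 ≤ 1 / 4 := by nlinarith [ht.1, ht.2]
  have h3 : 1 - (u * t) ^ 2 / 2 + (u * t) ^ 4 / 24 - (u * t) ^ 6 / 720 ≤ Real.cos (u * t) := by
    have h4 := Pool.Agent.H934R2.Ch.cos_lb6 (abs_nonneg (u * t))
    rw [Real.cos_abs, sq_abs] at h4
    have e4 : |u * t| ^ 4 = (u * t) ^ 4 := by
      rw [show (4 : ℕ) = 2 * 2 by norm_num, pow_mul, pow_mul, sq_abs]
    have e6 : |u * t| ^ 6 = (u * t) ^ 6 := by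
      rw [show (6 : ℕ) = 2 * 3 by norm_num, pow_mul, pow_mul, sq_abs]
    rwa [e4, e6] at h4
  have h5 : t ^ 4 * κ ≤ (u * t) ^ 4 / 24 - (u * t) ^ 6 / 720 := by
    have e : (u * t) ^ 4 / 24 - (u * t) ^ 6 / 720 - t ^ 4 * κ =
        (u * t) ^ 4 / 24 * (u ^ 2 * (1 / 4 - t ^ 2) / 30) := by
      rw [hκ]; ring
    have h6 : 0 ≤ (u * t) ^ 4 / 24 * (u ^ 2 * (1 / 4 - t ^ 2) / 30) := by
      apply mul_nonneg
      · have : (u * t) ^ 4 = ((u * t) ^ 2) ^ 2 := by ring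
        rw [this]; positivity
      · apply div_nonneg (mul_nonneg (sq_nonneg _) (by linarith)) (by norm_num)
    linarith
  have h7 : (1 - t ^ 2) * (t ^ 4 * κ) ≤ g0 t * ((u * t) ^ 4 / 24 - (u * t) ^ 6 / 720) := by
    have h8 : 0 ≤ t ^ 4 * κ := by positivity
    calc (1 - t ^ 2) * (t ^ 4 * κ) ≤ g0 t * (t ^ 4 * κ) := mul_le_mul_of_nonneg_right hg1 h8
      _ ≤ _ := mul_le_mul_of_nonneg_left h5 hg
  calc g0 t - g0 t * t ^ 2 * (u ^ 2 / 2) + (t ^ 4 - t ^ 6) * κ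
      = g0 t * (1 - (u * t) ^ 2 / 2) + (1 - t ^ 2) * (t ^ 4 * κ) := by ring
    _ ≤ g0 t * (1 - (u * t) ^ 2 / 2) + g0 t * ((u * t) ^ 4 / 24 - (u * t) ^ 6 / 720) := by
        linarith
    _ = g0 t * (1 - (u * t) ^ 2 / 2 + (u * t) ^ 4 / 24 - (u * t) ^ 6 / 720) := by ring
    _ ≤ g0 t * Real.cos (u * t) := mul_le_mul_of_nonneg_left h3 hg

/-- monotonicity -/
lemma KK_anti {r s : ℝ} (h0 : 0 ≤ r) (h1 : r ≤ s) (h2 : s ≤ 1 / 2) : KK s ≤ KK r := by
  have hpi := Real.pi_pos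
  have h := kap_lower (R := 2 * Real.pi * s) (u := 2 * Real.pi * r) (v := 0) (by
    rw [abs_of_nonneg (by positivity)]
    nlinarith) (by nlinarith)
  simp only [Complex.ofReal_zero, mul_zero, add_zero] at h
  exact h

lemma KK_half : 0.655 ≤ KK (1 / 2) := by
  refine le_trans ?_ (KK_quart (by norm_num) le_rfl)
  have h1 : cMTinv ≤ 1.3275 := Pool.Agent.W354.ZP.cMTinv_sharp
  have h2 := cMTinv_ge
  have h3 := Real.pi_lt_d4
  have h4 := Real.pi_gt_d4
  have h5 : (2 * Real.pi * (1 / 2)) ^ 2 ≤ 9.87 := by nlinarith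
  have h6 : 9.869 ≤ (2 * Real.pi * (1 / 2)) ^ 2 := by nlinarith
  set w : ℝ := (2 * Real.pi * (1 / 2)) ^ 2 with hw
  have h7 : (2 * Real.pi * (1 / 2)) ^ 4 = w ^ 2 := by rw [hw]; ring
  rw [h7]
  have h8 : w / 2 * (cMTinv - 5 / 4) ≤ 9.87 / 2 * 0.0775 := by
    apply mul_le_mul
    · linarith
    · norm_num at h1 ⊢; linarith
    · linarith
    · norm_num
  have h9 : 97.39 ≤ w ^ 2 := by nlinarith
  have h10 : 97.39 / 24 * (1 - 9.87 / 120) * (1 / 80 - 1 / 448) ≤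
      w ^ 2 / 24 * (1 - w / 120) * (1 / 80 - 1 / 448) := by
    apply mul_le_mul_of_nonneg_right _ (by norm_num)
    apply mul_le_mul
    · linarith
    · linarith
    · norm_num
    · positivity
  norm_num at h8 h10 ⊢
  linarith

lemma KK_045 : 0.715 ≤ KK 0.45 := by
  refine le_trans ?_ (KK_quart (by norm_num) (by norm_num))
  have h1 : cMTinv ≤ 1.3275 := Pool.Agent.W354.ZP.cMTinv_sharp
  have h2 := cMTinv_ge
  have h3 := Real.pi_lt_d4
  have h4 := Real.pi_gt_d4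
  have h5 : (2 * Real.pi * 0.45) ^ 2 ≤ 7.995 := by nlinarith
  have h6 : 7.993 ≤ (2 * Real.pi * 0.45) ^ 2 := by nlinarith
  set w : ℝ := (2 * Real.pi * 0.45) ^ 2 with hw
  have h7 : (2 * Real.pi * 0.45) ^ 4 = w ^ 2 := by rw [hw]; ring
  rw [h7]
  have h8 : w / 2 * (cMTinv - 5 / 4) ≤ 7.995 / 2 * 0.0775 := by
    apply mul_le_mul
    · linarith
    · norm_num at h1 ⊢; linarith
    · linarith
    · norm_num
  have h9 : 63.88 ≤ w ^ 2 := by nlinarith
  have h10 : 63.88 / 24 * (1 - 7.995 / 120) * (1 / 80 - 1 / 448) ≤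
      w ^ 2 / 24 * (1 - w / 120) * (1 / 80 - 1 / 448) := by
    apply mul_le_mul_of_nonneg_right _ (by norm_num)
    apply mul_le_mul
    · linarith
    · linarith
    · norm_num
    · positivity
  norm_num at h8 h10 ⊢
  linarith

end Pool.Agent.U73.WS
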